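import Mathlib
import Pool.Agent.H34.Ipg.Fin
import Pool.Agent.H34.Ipq.Fin4

/-!
# `Int_K(A)` integrally closed versus Prüfer: full answer, and a description of all such `A`

Q1 holds for all ADDB-domains (1). We describe the algebras `A` for which `Int_K(A)` is integrally
closed, equivalently a Prüfer domain: over every ADDB-domain they have no nonzero nilpotent elements
and `w A ⊆ A w` for all `w` which are not right zero divisors (1); the commutative ones are the finite
products of integral closures of `D` in finite extension fields of `K` (2); and over the ring of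
integers of a global field all of them are commutative, and so they are these products (3). This is
not so over all ADDB-domains: an example is the quaternion order with `i² = -1`, `j² = 3` over the
discrete valuation ring of the `3`-adic integers (4).

Idea of (3). Let `A` contain all elements of `B = K ⊗ A` which are integral over `D`, let `u, x ∈ A`,
and let `n` be a large element of the base ring `ℤ` or `𝔽_l[t]`. Then `u + n` is invertible in `B`, and
`(u + n) x (u + n)⁻¹ = x + (u x - x u) (u + n)⁻¹` is integral, so that it is in `A`. It tends to `x` for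
`n → ∞`, and `A` is discrete; so it is `x` for some `n`, and `u x = x u`.

Idea of (4). If `q = x + y i + z j + w ij` is integral, then `x² + y² - 3 z² - 3 w²` is a `3`-adic
integer, and since `-1` is not a square modulo `3` this implies that `x, y, z, w` are `3`-adic integers.
-/

set_option autoImplicit false

open Polynomial TensorProduct Quaternion Pool.Agent.V113.IntK Pool.Agent.H17Sv

namespace Pool.Agent.Results.MP_6e749b_al.AllClosedCases

universe u v w

/-- The ring of integers of a global field: a Dedekind domain which is a finite module over a subring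
isomorphic to `ℤ` or to `𝔽_l[t]`, `l` a prime number. -/
def IsRingOfIntegers (D : Type*) [CommRing D] : Prop :=
  IsDedekindDomain D ∧ ∃ D₀ : Subring D,
    (Nonempty (D₀ ≃+* ℤ) ∨ ∃ l : ℕ, l.Prime ∧ Nonempty (D₀ ≃+* (ZMod l)[X])) ∧ Module.Finite D₀ D

/-- As a `D`-algebra, `A` is isomorphic to a finite product of integral closures of `D` in finite
extension fields of `K`. -/
def IsProductOfClosures (D : Type u) (K : Type v) (A : Type w) [CommRing D] [Field K] [Algebra D K]
    [Ring A] [Algebra D A] : Prop :=
  ∃ (ι : Type (max v w)) (_ : Finite ι) (L : ι → Type (max v w)) (_ : ∀ i, Field (L i))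
    (_ : ∀ i, Algebra D (L i)) (_ : ∀ i, Algebra K (L i)) (_ : ∀ i, IsScalarTower D K (L i))
    (_ : ∀ i, FiniteDimensional K (L i)), Nonempty (A ≃ₐ[D] ∀ i, integralClosure D (L i))

/-- `Int_K(A)` is integrally closed. -/
def ClosedInt (D : Type u) (K : Type v) (A : Type w) [CommRing D] [Field K] [Algebra D K] [Ring A]
    [Algebra D A] : Prop :=
  IsIntegrallyClosed (IntK D K A)

/-- `Int_K(A)` is a Prüfer domain. -/
def PrueferInt (D : Type u) (K : Type v) (A : Type w) [CommRing D] [Field K] [Algebra D K] [Ring A]
    [Algebra D A] : Prop :=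
  IsPruefer (IntK D K A)

/-- `A` is a noncommutative algebra as in the question, over the ADDB-domain `D`, for which
`Int_K(A)` is integrally closed and Prüfer. -/
def IsNoncommutativeExample (D : Type u) (K : Type v) (A : Type w) [CommRing D] [IsDomain D]
    [Field K] [Algebra D K] [Ring A] [Algebra D A] : Prop :=
  IsADDB D ∧ Module.Finite D A ∧ Module.IsTorsionFree D A ∧
    ClosedInt D K A ∧ PrueferInt D K A ∧ ∃ x y : A, x * y ≠ y * x

theorem result :
    -- (1) Q1 for all ADDB-domains, with necessary conditions
    (∀ (D : Type u) (K : Type v) (A : Type w) [CommRing D] [IsDomain D] [Field K]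
      [Algebra D K] [IsFractionRing D K] [Ring A] [Nontrivial A] [Algebra D A] [Module.Finite D A]
      [Module.IsTorsionFree D A], IsADDB D →
      (ClosedInt D K A ↔ PrueferInt D K A) ∧
      (ClosedInt D K A → IsReduced A ∧
        ∀ w : A, (∀ y : A, y * w = 0 → y = 0) → ∀ x : A, ∃ y : A, w * x = y * w)) ∧
    -- (2) the commutative algebras over all ADDB-domains
    (∀ (D : Type u) (K : Type v) (A : Type w) [CommRing D] [IsDomain D] [Field K]
      [Algebra D K] [IsFractionRing D K] [CommRing A] [Nontrivial A] [Algebra D A]
      [Module.Finite D A] [Module.IsTorsionFree D A], IsADDB D →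
      (ClosedInt D K A ↔ IsProductOfClosures D K A)) ∧
    -- (3) all algebras over the rings of integers of global fields
    (∀ (D : Type u) (K : Type v) (A : Type w) [CommRing D] [IsDomain D] [Field K]
      [Algebra D K] [IsFractionRing D K] [Ring A] [Nontrivial A] [Algebra D A] [Module.Finite D A]
      [Module.IsTorsionFree D A], IsRingOfIntegers D →
      IsADDB D ∧ (ClosedInt D K A ↔ IsProductOfClosures D K A) ∧
      (ClosedInt D K A → ∀ x y : A, x * y = y * x)) ∧
    -- (4) a noncommutative example over the ring of 3-adic integers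
    IsNoncommutativeExample ℤ_[3] ℚ_[3] ℍ[ℤ_[3], -1, 0, 3] := by
  unfold ClosedInt PrueferInt
  refine ⟨?_, ?_, ?_, H34.Ipq.noncommutative⟩
  · intro D K A _ _ _ _ _ _ _ _ _ _ hD
    refine ⟨H34.Ipg.closed_iff_pruefer D K A hD, fun h => ?_⟩
    have h1 : H34.Ipg.Full D A := H34.Ipg.full_iff.1 ((H34.Ipg.closed_iff D K A hD).1 h)
    exact ⟨⟨fun a ⟨m, hm⟩ => H34.Ipg.reduced_gen D K A hD.not_isField h1 a m hm⟩,
      fun w hw x => H34.Ipg.conj_mem h1 w x hw⟩
  · intro D K A _ _ _ _ _ _ _ _ _ _ hD
    exact (H34.Ipg.closed_iff D K A hD).trans (H34.Ipg.isProduct_comm D K A hD.not_isField)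
  · intro D K A _ _ _ _ _ _ _ _ _ _ hI
    obtain ⟨hded, D₀, hD₀, hfin⟩ := hI
    obtain ⟨hD, h1, h2⟩ := H34.Ipg.main_int D K A D₀ hD₀ hfin
    exact ⟨hD, (H34.Ipg.closed_iff D K A hD).trans h1,
      fun h => h2 ((H34.Ipg.closed_iff D K A hD).1 h)⟩

end Pool.Agent.Results.MP_6e749b_al.AllClosedCases
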